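import Pool.Agent.helper48.LL.CVB0
import Pool.Agent.helper62.EN.XFL
import Pool.Agent.helper68.EN.XNB
import Pool.Agent.helper72.EN.XTX

set_option autoImplicit false

namespace Pool.Agent.LL

theorem CVB_proof : CVB_stmt :=
  CVB_aux EN.XFL_proof (EN.XTX_proof EN.XFL_proof) (EN.XNB_proof EN.XFL_proof)

end Pool.Agent.LL
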