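import Pool.Agent.helper62.LL.SpecK

set_option autoImplicit false

open scoped MatrixGroups ContDiff Topology UpperHalfPlane
open UpperHalfPlane MeasureTheory Filter Set

namespace Pool.Agent.LL

open Pool.Agent.EN (XG MG mkX mkM fl pr nr Ux)

theorem CVB_num (a b c d u v η r : ℝ) (hr0 : 0 < r) (hr : r ≤ 1) (hη0 : 0 < η) (hη : η ≤ r / 4)
    (ha : |a - 1| ≤ r / 16) (hb : |b| ≤ r / 16) (hdet : a * d - b * c = 1)
    (hu : |c / a - u| ≤ η) (hv : |a * b - v| ≤ η) :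
    |(1 + u * v) * a - v * c - 1| ≤ r ∧ |-u * b + d - 1| ≤ r ∧ |(1 + u * v) * b - v * d| ≤ 4 * η ∧
      |-u * a + c| ≤ 4 * η := by
  have ha1 := abs_le.1 ha
  have ha0 : 15 / 16 ≤ a := by linarith
  have ha2 : a ≤ 17 / 16 := by linarith
  have hap : 0 < a := by linarith
  have habs : |a| ≤ 17 / 16 := by rw [abs_of_pos hap]; exact ha2
  set E : ℝ := -u * a + c with hE
  have hEe : E = (c / a - u) * a := by
    rw [hE]
    field_simp
    ring
  have hEb : |E| ≤ 17 / 16 * η := by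
    rw [hEe, abs_mul]
    calc |c / a - u| * |a| ≤ η * (17 / 16) := mul_le_mul hu habs (abs_nonneg _) hη0.le
      _ = 17 / 16 * η := mul_comm _ _
  have hab : |a * b| ≤ 17 / 256 := by
    rw [abs_mul]
    calc |a| * |b| ≤ 17 / 16 * (1 / 16) :=
          mul_le_mul habs (hb.trans (by linarith)) (abs_nonneg _) (by norm_num)
      _ = 17 / 256 := by norm_num
  have hvb : |v| ≤ 3 / 8 := by
    have h1 : v = a * b - (a * b - v) := by ring
    rw [h1]
    refine (abs_sub _ _).trans ?_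
    linarith
  have hvE : |v * E| ≤ 3 / 8 * (17 / 16 * η) := by
    rw [abs_mul]
    exact mul_le_mul hvb hEb (abs_nonneg _) (by norm_num)
  have hbE : |b * E| ≤ 1 / 16 * (17 / 16 * η) := by
    rw [abs_mul]
    exact mul_le_mul (hb.trans (by linarith)) hEb (abs_nonneg _) (by norm_num)
  have hvbE : |v * (b * E)| ≤ 3 / 8 * (1 / 16 * (17 / 16 * η)) := by
    rw [abs_mul]
    exact mul_le_mul hvb hbE (abs_nonneg _) (by norm_num)
  have hd : a * (-u * b + d) = 1 + b * E := by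
    rw [hE]
    linear_combination hdet
  refine ⟨?_, ?_, ?_, ?_⟩
  · have h1 : (1 + u * v) * a - v * c - 1 = (a - 1) - v * E := by rw [hE]; ring
    rw [h1]
    refine (abs_sub _ _).trans ?_
    linarith
  · have h1 : a * (-u * b + d - 1) = (1 - a) + b * E := by linear_combination hd
    have h2 : |a * (-u * b + d - 1)| ≤ r / 16 + 1 / 16 * (17 / 16 * η) := by
      rw [h1]
      refine (abs_add_le _ _).trans ?_
      rw [abs_sub_comm]
      linarith
    rw [abs_mul, abs_of_pos hap] at h2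
    have h3 := abs_nonneg (-u * b + d - 1)
    nlinarith
  · have h1 : a * ((1 + u * v) * b - v * d) = (a * b - v) - v * (b * E) := by
      have h2 : a * ((1 + u * v) * b - v * d) = a * b - v * (a * (-u * b + d)) := by ring
      rw [h2, hd]
      ring
    have h2 : |a * ((1 + u * v) * b - v * d)| ≤ η + 3 / 8 * (1 / 16 * (17 / 16 * η)) := by
      rw [h1]
      refine (abs_sub _ _).trans ?_
      linarith
    rw [abs_mul, abs_of_pos hap] at h2
    have h3 := abs_nonneg ((1 + u * v) * b - v * d)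
    nlinarith
  · linarith

/-- the lower triangular matrix -/
def CVB_L (u : ℝ) : SL(2, ℝ) := ⟨!![1, 0; u, 1], by simp [Matrix.det_fin_two]⟩

/-- the upper triangular matrix -/
def CVB_N (v : ℝ) : SL(2, ℝ) := ⟨!![1, v; 0, 1], by simp [Matrix.det_fin_two]⟩

theorem CVB_mem {r η u v : ℝ} {h : SL(2, ℝ)} (hr0 : 0 < r) (hr : r ≤ 1) (hη0 : 0 < η) (hη : η ≤ r / 4)
    (ha : |h.1 0 0 - 1| ≤ r / 16) (hb : |h.1 0 1| ≤ r / 16)
    (hu : |h.1 1 0 / h.1 0 0 - u| ≤ η) (hv : |h.1 0 0 * h.1 0 1 - v| ≤ η) :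
    bx r (4 * η) ((CVB_L u * CVB_N v)⁻¹ * h) := by
  have hdet : h.1 0 0 * h.1 1 1 - h.1 0 1 * h.1 1 0 = 1 := by
    have := h.2
    rwa [Matrix.det_fin_two] at this
  obtain ⟨h1, h2, h3, h4⟩ := CVB_num _ _ _ _ u v η r hr0 hr hη0 hη ha hb hdet hu hv
  have hm : (((CVB_L u * CVB_N v)⁻¹ * h : SL(2, ℝ)) : Matrix (Fin 2) (Fin 2) ℝ) =
      !![(1 + u * v) * h.1 0 0 - v * h.1 1 0, (1 + u * v) * h.1 0 1 - v * h.1 1 1;
        -u * h.1 0 0 + h.1 1 0, -u * h.1 0 1 + h.1 1 1] := by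
    rw [Matrix.SpecialLinearGroup.coe_mul, Matrix.SpecialLinearGroup.coe_inv,
      Matrix.SpecialLinearGroup.coe_mul, Matrix.adjugate_fin_two]
    ext i j
    fin_cases i <;> fin_cases j <;>
      simp [Matrix.mul_apply, Fin.sum_univ_two, CVB_L, CVB_N] <;> ring
  unfold bx
  have e00 : ((CVB_L u * CVB_N v)⁻¹ * h : SL(2, ℝ)).1 0 0 = (1 + u * v) * h.1 0 0 - v * h.1 1 0 := by
    rw [hm]; rfl
  have e11 : ((CVB_L u * CVB_N v)⁻¹ * h : SL(2, ℝ)).1 1 1 = -u * h.1 0 1 + h.1 1 1 := by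
    rw [hm]; rfl
  have e01 : ((CVB_L u * CVB_N v)⁻¹ * h : SL(2, ℝ)).1 0 1 = (1 + u * v) * h.1 0 1 - v * h.1 1 1 := by
    rw [hm]; rfl
  have e10 : ((CVB_L u * CVB_N v)⁻¹ * h : SL(2, ℝ)).1 1 0 = -u * h.1 0 0 + h.1 1 0 := by
    rw [hm]; rfl
  rw [e00, e11, e01, e10]
  exact ⟨h1, h2, h3, h4⟩

/-- grid points -/
theorem CVB_grid {η x : ℝ} (hη : 0 < η) (hx : |x| ≤ 1) :
    ∃ i ∈ Finset.Icc (-(⌈1 / η⌉₊ : ℤ)) ⌈1 / η⌉₊, |x - η * i| ≤ η := by
  refine ⟨⌊x / η⌋, ?_, ?_⟩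
  · rw [Finset.mem_Icc]
    have h1 : (1 : ℝ) / η ≤ (⌈1 / η⌉₊ : ℝ) := Nat.le_ceil _
    rw [abs_le] at hx
    constructor
    · rw [Int.le_floor]
      push_cast
      rw [le_div_iff₀ hη]
      have h2 : 1 ≤ (⌈1 / η⌉₊ : ℝ) * η := by rwa [div_le_iff₀ hη] at h1
      linarith
    · have h2 : ((⌊x / η⌋ : ℤ) : ℝ) ≤ ((⌈1 / η⌉₊ : ℤ) : ℝ) := by
        refine (Int.floor_le _).trans ?_
        push_cast
        refine le_trans ?_ h1
        exact div_le_div_of_nonneg_right hx.2 hη.le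
      exact_mod_cast h2
  · have h1 : ((⌊x / η⌋ : ℤ) : ℝ) ≤ x / η := Int.floor_le _
    have h2 : x / η < ⌊x / η⌋ + 1 := Int.lt_floor_add_one _
    rw [le_div_iff₀ hη] at h1
    rw [div_lt_iff₀ hη] at h2
    rw [abs_le]
    constructor <;> linarith

theorem CVB_aux (hXFL : EN.XFL_stmt) (hXTX : EN.XTX_stmt) (hXNB : EN.XNB_stmt) : CVB_stmt := by
  intro Γ r hΓ hr0 hr
  classical
  haveI : CompactSpace (XG Γ) := (hXTX Γ hΓ).1
  obtain ⟨t, ht⟩ := CompactSpace.elim_nhds_subcover (fun x : XG Γ => Ux Γ (r / 16) x)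
    (fun x => hXNB Γ (r / 16) x (by positivity))
  obtain ⟨-, -, -, -, hsurj, -, -, -, -, -, heq, -⟩ := hXFL Γ
  choose rep hrep using hsurj
  refine ⟨t.card * (121 / r ^ 2) + 1, by positivity, ?_⟩
  intro n
  set η : ℝ := r * Real.exp (-n) / 4 with hη
  have hη0 : 0 < η := by positivity
  have hexp1 : Real.exp (-(n : ℝ)) ≤ 1 := Real.exp_le_one_iff.2 (by simp)
  have hη4 : η ≤ r / 4 := by
    rw [hη]
    have := mul_le_mul_of_nonneg_left hexp1 hr0.le
    linarith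
  set K : ℕ := ⌈1 / η⌉₊ with hK
  refine ⟨(t ×ˢ (Finset.Icc (-(K : ℤ)) K ×ˢ Finset.Icc (-(K : ℤ)) K)).image
    (fun q : XG Γ × ℤ × ℤ => mkX Γ (rep q.1 * (CVB_L (η * q.2.1) * CVB_N (η * q.2.2)))), ?_, ?_⟩
  · have h1 : ((t ×ˢ (Finset.Icc (-(K : ℤ)) K ×ˢ Finset.Icc (-(K : ℤ)) K)).image
      (fun q : XG Γ × ℤ × ℤ => mkX Γ (rep q.1 * (CVB_L (η * q.2.1) * CVB_N (η * q.2.2))))).card ≤
        t.card * ((2 * K + 1) * (2 * K + 1)) := by
      refine Finset.card_image_le.trans (le_of_eq ?_)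
      rw [Finset.card_product, Finset.card_product, Int.card_Icc]
      have : ((K : ℤ) + 1 - -(K : ℤ)).toNat = 2 * K + 1 := by omega
      rw [this]
    have h2 : (2 * K + 1 : ℝ) ≤ 11 / r * Real.exp n := by
      have h3 : (K : ℝ) < 1 / η + 1 := Nat.ceil_lt_add_one (by positivity)
      have h4 : 1 / η = 4 / r * Real.exp n := by
        rw [hη, Real.exp_neg]
        field_simp
      have h5 : (1 : ℝ) ≤ 1 / r * Real.exp n := by
        have h6 : (1 : ℝ) ≤ 1 / r := by rw [le_div_iff₀ hr0]; linarith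
        have h7 : (1 : ℝ) ≤ Real.exp n := Real.one_le_exp (by positivity)
        nlinarith
      rw [h4] at h3
      have h8 : 11 / r * Real.exp n = 2 * (4 / r * Real.exp n) + 3 * (1 / r * Real.exp n) := by ring
      rw [h8]
      linarith
    have h3 : ((t.card * ((2 * K + 1) * (2 * K + 1)) : ℕ) : ℝ) ≤ t.card * (121 / r ^ 2) * Real.exp (2 * n) := by
      push_cast
      have h4 : (2 * K + 1 : ℝ) * (2 * K + 1) ≤ (11 / r * Real.exp n) * (11 / r * Real.exp n) :=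
        mul_le_mul h2 h2 (by positivity) (by positivity)
      have h5 : (11 / r * Real.exp n) * (11 / r * Real.exp n) = 121 / r ^ 2 * Real.exp (2 * n) := by
        have : Real.exp (2 * (n : ℝ)) = Real.exp n * Real.exp n := by
          rw [← Real.exp_add]
          congr 1
          ring
        rw [this]
        field_simp
        norm_num
      rw [h5] at h4
      calc (t.card : ℝ) * ((2 * K + 1) * (2 * K + 1)) ≤ t.card * (121 / r ^ 2 * Real.exp (2 * n)) :=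
            mul_le_mul_of_nonneg_left h4 (by positivity)
        _ = _ := by ring
    have h6 : 0 < Real.exp (2 * (n : ℝ)) := Real.exp_pos _
    calc _ ≤ ((t.card * ((2 * K + 1) * (2 * K + 1)) : ℕ) : ℝ) := by exact_mod_cast h1
      _ ≤ _ := h3
      _ ≤ (t.card * (121 / r ^ 2) + 1) * Real.exp (2 * n) := by nlinarith
  · intro y
    have hy : y ∈ ⋃ x ∈ t, Ux Γ (r / 16) x := by rw [ht]; trivial
    rw [Set.mem_iUnion₂] at hy
    obtain ⟨x, hxt, g, h, hh, hxg, hyg⟩ := hy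
    -- the representative
    obtain ⟨γ, hγ⟩ := (heq g (rep x)).1 (by rw [hrep, ← hxg])
    have hyr : y = mkX Γ (rep x * h) := by
      rw [hyg]
      refine (heq _ _).2 ⟨γ, ?_⟩
      rw [← mul_assoc, hγ]
    have h00 : |h.1 0 0 - 1| < r / 16 := by simpa using hh 0 0
    have h01 : |h.1 0 1| < r / 16 := by simpa using hh 0 1
    have h10 : |h.1 1 0| < r / 16 := by simpa using hh 1 0
    have ha := abs_lt.1 h00
    have hap : 15 / 16 ≤ h.1 0 0 := by linarith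
    have ha2 : h.1 0 0 ≤ 17 / 16 := by linarith
    obtain ⟨i, hi, hi2⟩ := CVB_grid (x := h.1 1 0 / h.1 0 0) hη0 (by
      rw [abs_div, abs_of_pos (by linarith : 0 < h.1 0 0), div_le_one (by linarith)]
      linarith)
    obtain ⟨j, hj, hj2⟩ := CVB_grid (x := h.1 0 0 * h.1 0 1) hη0 (by
      rw [abs_mul, abs_of_pos (by linarith : 0 < h.1 0 0)]
      have := abs_nonneg (h.1 0 1)
      nlinarith)
    refine ⟨mkX Γ (rep x * (CVB_L (η * i) * CVB_N (η * j))), ?_, ?_⟩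
    · rw [Finset.mem_image]
      exact ⟨(x, i, j), Finset.mem_product.2 ⟨hxt, Finset.mem_product.2 ⟨hi, hj⟩⟩, rfl⟩
    · refine ⟨rep x * (CVB_L (η * i) * CVB_N (η * j)), (CVB_L (η * i) * CVB_N (η * j))⁻¹ * h, ?_, rfl, ?_⟩
      · have h1 := CVB_mem hr0 hr hη0 hη4 h00.le h01.le hi2 hj2
        have h2 : 4 * η = r * Real.exp (-n) := by rw [hη]; ring
        rwa [h2] at h1
      · rw [hyr]
        congr 1
        rw [mul_assoc, mul_inv_cancel_left]

end Pool.Agent.LL
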